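import Pool.Agent.LE.StmtsZ

/-!
# Row SLC: the log Caccioppoli inequality with the sharp constant
-/

set_option autoImplicit false

open MeasureTheory ProbabilityTheory Function Filter

open scoped ENNReal BigOperators Topology NNReal

noncomputable section

namespace Pool.Agent.LE.H34Z

open Pool.Agent.Anderson Pool.Agent.Loc Pool.Agent.LE

variable {d : ℕ}

theorem clamp (u v c : ℝ) (hc : 0 ≤ c) (h : |u - v| ≤ c) :
    |min 1 (max 0 u) - min 1 (max 0 v)| ≤ c := by
  rw [abs_le] at h ⊢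
  obtain ⟨h1, h2⟩ := h
  simp only [min_def, max_def]
  split_ifs <;> constructor <;> linarith

/-- the cut-off: `1` up to the distance `a`, `0` from the distance `a + r` on -/
def cut (p : Site d) (a r : ℕ) (x : Site d) : ℝ :=
  min 1 (max 0 (((a : ℝ) + r - sd p x) / r))

theorem cut_nonneg (p : Site d) (a r : ℕ) (x : Site d) : 0 ≤ cut p a r x :=
  le_min zero_le_one (le_max_left _ _)

theorem cut_le_one (p : Site d) (a r : ℕ) (x : Site d) : cut p a r x ≤ 1 := min_le_left _ _

theorem cut_eq_one (p : Site d) (a r : ℕ) (x : Site d) (hr : 0 < r) (h : sd p x ≤ a) :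
    cut p a r x = 1 := by
  unfold cut
  apply min_eq_left
  apply le_max_of_le_right
  have hr' : (0 : ℝ) < r := by exact_mod_cast hr
  have h' : (sd p x : ℝ) ≤ a := by exact_mod_cast h
  rw [le_div_iff₀ hr']
  linarith

theorem cut_eq_zero (p : Site d) (a r : ℕ) (x : Site d) (h : a + r ≤ sd p x) :
    cut p a r x = 0 := by
  unfold cut
  have h' : (a : ℝ) + r ≤ sd p x := by exact_mod_cast h
  have h2 : ((a : ℝ) + r - sd p x) / r ≤ 0 :=
    div_nonpos_of_nonpos_of_nonneg (by linarith) (Nat.cast_nonneg _)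
  rw [max_eq_left h2]
  exact min_eq_right zero_le_one

theorem sd_step (p x : Site d) (i : Fin d) :
    sd p (x + Pi.single i 1) ≤ sd p x + 1 ∧ sd p x ≤ sd p (x + Pi.single i 1) + 1 := by
  constructor
  · exact (sd_triangle p x _).trans (Nat.add_le_add_left (sd_add_single_le x i) _)
  · refine (sd_triangle p (x + Pi.single i 1) x).trans (Nat.add_le_add_left ?_ _)
    rw [sd_comm]
    exact sd_add_single_le x i

theorem cut_lip (p : Site d) (a r : ℕ) (x : Site d) (i : Fin d) (hr : 0 < r) :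
    |cut p a r x - cut p a r (x + Pi.single i 1)| ≤ 1 / r := by
  unfold cut
  have hr' : (0 : ℝ) < r := by exact_mod_cast hr
  apply clamp _ _ _ (by positivity)
  rw [← sub_div, abs_div, abs_of_pos hr']
  apply div_le_div_of_nonneg_right _ hr'.le
  obtain ⟨h1, h2⟩ := sd_step p x i
  have h1' : (sd p (x + Pi.single i 1) : ℝ) ≤ sd p x + 1 := by exact_mod_cast h1
  have h2' : (sd p x : ℝ) ≤ sd p (x + Pi.single i 1) + 1 := by exact_mod_cast h2
  rw [abs_le]
  constructor <;> linarith

theorem sum_shift (g : Site d → ℝ) (p : Site d) (S T : ℕ) (i : Fin d)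
    (hg : ∀ x, x ∉ box p S → g x = 0) (hT : S + 1 ≤ T) :
    ∑ x ∈ box p T, g (x + Pi.single i 1) = ∑ x ∈ box p T, g x := by
  have h1 : ∑ x ∈ box p S, g x = ∑ x ∈ box p T, g x :=
    Finset.sum_subset (box_mono p (by omega)) (fun x _ hx => hg x hx)
  have h2 : ∑ x ∈ (box p T).map (Equiv.addRight (Pi.single i (1 : ℤ))).toEmbedding, g x =
      ∑ x ∈ box p T, g (x + Pi.single i 1) := by
    rw [Finset.sum_map]
    rfl
  rw [← h1, ← h2]
  symm
  apply Finset.sum_subset
  · intro x hx
    rw [Finset.mem_map]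
    refine ⟨x - Pi.single i 1, ?_, ?_⟩
    · rw [mem_box] at hx ⊢
      have := (sd_step p (x - Pi.single i 1) i).2
      rw [sub_add_cancel] at this
      omega
    · show x - Pi.single i 1 + Pi.single i 1 = x
      exact sub_add_cancel _ _
  · intro x _ hx
    exact hg x hx

theorem pow_lin (d : ℕ) (x : ℝ) (h0 : 0 ≤ x) (h1 : x ≤ 1) : (1 + x) ^ d ≤ 1 + 2 ^ d * x := by
  have key : (1 + x) ^ d ≤ 1 + (2 ^ d - 1) * x := by
    induction d with
    | zero => simp
    | succ n ih =>
      have h2 : (1 : ℝ) ≤ 2 ^ n := one_le_pow₀ (by norm_num)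
      calc (1 + x) ^ (n + 1) = (1 + x) ^ n * (1 + x) := by ring
        _ ≤ (1 + (2 ^ n - 1) * x) * (1 + x) := mul_le_mul_of_nonneg_right ih (by linarith)
        _ = 1 + x + (2 ^ n - 1) * x + (2 ^ n - 1) * x * x := by ring
        _ ≤ 1 + x + (2 ^ n - 1) * x + (2 ^ n - 1) * x * 1 := by
          have : 0 ≤ (2 ^ n - 1) * x := mul_nonneg (by linarith) h0
          have := mul_le_mul_of_nonneg_left h1 this
          linarith
        _ = 1 + (2 ^ (n + 1) - 1) * x := by ring
  linarith

theorem slc (ele : EleStmt) (lci : LciStmt) : SlcStmt := by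
  intro d hd
  set K : ℝ := 5 * d * 8 ^ d with hK
  have hd' : (1 : ℝ) ≤ d := by exact_mod_cast hd
  have hK1 : 1 ≤ K := by
    have : (1 : ℝ) ≤ 8 ^ d := one_le_pow₀ (by norm_num)
    rw [hK]
    exact one_le_mul_of_one_le_of_one_le (by linarith only [hd']) this
  set C' : ℝ := 2 * 2 ^ d + 2 * K with hC'
  have hC'1 : 1 ≤ C' := by
    have : (0 : ℝ) < 2 ^ d := by positivity
    rw [hC']; linarith
  refine ⟨3 + 2 * C', by linarith, ?_⟩
  intro ω h ε k p s i₀ hε hε1 hk hk1 hs hLS
  set q := Real.sqrt k with hq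
  have hq0 : 0 < q := Real.sqrt_pos.2 hk
  have hqq : q * q = k := Real.mul_self_sqrt hk.le
  have hq1 : q ≤ 1 := by rw [hq]; exact Real.sqrt_le_one.2 hk1
  have hε2 : 0 < ε ^ 2 := by positivity
  have hs1 : 1 ≤ ε ^ 2 * q * s := by
    rw [div_le_iff₀ hε2] at hs
    linarith
  have hεs : 10 ≤ ε * s := by
    have h1 : ε ^ 2 * q * s ≤ ε ^ 2 * 1 * s := by gcongr
    have h2 : ε ^ 2 * 1 * s = ε * (ε * s) := by ring
    have h3 : ε * (ε * s) ≤ 1 / 10 * (ε * s) := by gcongr
    linarith
  have hs100 : (100 : ℝ) ≤ s := by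
    have : ε * (s : ℝ) ≤ 1 / 10 * s := by gcongr
    linarith
  have hs0 : (0 : ℝ) < s := by linarith
  -- the radius
  set r : ℕ := ⌈ε * s⌉₊ with hr
  have hr1 : ε * s ≤ r := Nat.le_ceil _
  have hr2 : (r : ℝ) < ε * s + 1 := Nat.ceil_lt_add_one (by positivity)
  have hr0 : (0 : ℝ) < r := by linarith
  have hr0' : 0 < r := by exact_mod_cast hr0
  set S : ℕ := s + 1 + r with hS
  have hS2 : S + 1 ≤ 2 * s := by
    have : (S : ℝ) + 1 ≤ 2 * s := by
      rw [hS]; push_cast
      have : ε * (s : ℝ) ≤ 1 / 10 * s := by gcongr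
      linarith
    exact_mod_cast this
  set φ : Site d → ℝ := cut p (s + 1) r with hφ
  set B := box p (S + 1) with hB
  have φ0 : ∀ x, 0 ≤ φ x := cut_nonneg p (s + 1) r
  have φ1 : ∀ x, φ x ≤ 1 := cut_le_one p (s + 1) r
  have φz : ∀ x, S ≤ sd p x → φ x = 0 := fun x hx => cut_eq_zero p (s + 1) r x hx
  have φo : ∀ x, sd p x ≤ s + 1 → φ x = 1 := fun x hx => cut_eq_one p (s + 1) r x hr0' hx
  obtain ⟨hω, hLS2⟩ := hLS
  -- the sum
  have hsum : ∑ x ∈ B, φ x * (ω x * ∑ i : Fin d,
      (ω (x + Pi.single i 1) * (Real.exp (h (x + Pi.single i 1) - h x) - 1) +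
        ω (x - Pi.single i 1) * (Real.exp (h (x - Pi.single i 1) - h x) - 1))) ≤
      k * (2 * (S + 1 : ℕ) + 1 : ℝ) ^ d := by
    have h1 : ∀ x ∈ B, φ x * (ω x * ∑ i : Fin d,
      (ω (x + Pi.single i 1) * (Real.exp (h (x + Pi.single i 1) - h x) - 1) +
        ω (x - Pi.single i 1) * (Real.exp (h (x - Pi.single i 1) - h x) - 1))) ≤ k := by
      intro x hx
      have h2 := hLS2 x (box_mono p (by omega) hx)
      calc _ ≤ φ x * k := mul_le_mul_of_nonneg_left h2 (φ0 x)
        _ ≤ 1 * k := mul_le_mul_of_nonneg_right (φ1 x) hk.le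
        _ = k := one_mul k
    refine (Finset.sum_le_card_nsmul B _ k h1).trans (le_of_eq ?_)
    rw [hB, card_box, nsmul_eq_mul]
    push_cast
    ring
  have hrew : ∑ x ∈ B, φ x * (ω x * ∑ i : Fin d,
      (ω (x + Pi.single i 1) * (Real.exp (h (x + Pi.single i 1) - h x) - 1) +
        ω (x - Pi.single i 1) * (Real.exp (h (x - Pi.single i 1) - h x) - 1))) =
      ∑ i : Fin d, ∑ x ∈ B, ω x * ω (x + Pi.single i 1) *
        (φ x * (Real.exp (h (x + Pi.single i 1) - h x) - 1) +
          φ (x + Pi.single i 1) * (Real.exp (-(h (x + Pi.single i 1) - h x)) - 1)) := by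
    have h1 : ∀ i : Fin d, ∑ x ∈ B, φ x * ω x * (ω (x - Pi.single i 1) *
        (Real.exp (h (x - Pi.single i 1) - h x) - 1)) =
        ∑ x ∈ B, ω x * ω (x + Pi.single i 1) *
          (φ (x + Pi.single i 1) * (Real.exp (-(h (x + Pi.single i 1) - h x)) - 1)) := by
      intro i
      have hsh := sum_shift (fun x => φ x * ω x * (ω (x - Pi.single i 1) *
        (Real.exp (h (x - Pi.single i 1) - h x) - 1))) p S (S + 1) i (by
          intro x hx
          rw [mem_box] at hx
          show φ x * ω x * (ω (x - Pi.single i 1) *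
            (Real.exp (h (x - Pi.single i 1) - h x) - 1)) = 0
          rw [φz x (by omega)]
          ring) le_rfl
      rw [← hB] at hsh
      rw [← hsh]
      apply Finset.sum_congr rfl
      intro x _
      show φ (x + Pi.single i 1) * ω (x + Pi.single i 1) *
        (ω (x + Pi.single i 1 - Pi.single i 1) *
        (Real.exp (h (x + Pi.single i 1 - Pi.single i 1) - h (x + Pi.single i 1)) - 1)) = _
      rw [add_sub_cancel_right, neg_sub]
      ring
    have h2 : ∀ i : Fin d, ∑ x ∈ B, ω x * ω (x + Pi.single i 1) *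
        (φ x * (Real.exp (h (x + Pi.single i 1) - h x) - 1) +
          φ (x + Pi.single i 1) * (Real.exp (-(h (x + Pi.single i 1) - h x)) - 1)) =
        ∑ x ∈ B, (φ x * ω x * (ω (x + Pi.single i 1) *
          (Real.exp (h (x + Pi.single i 1) - h x) - 1)) + φ x * ω x * (ω (x - Pi.single i 1) *
        (Real.exp (h (x - Pi.single i 1) - h x) - 1))) := by
      intro i
      rw [Finset.sum_add_distrib, h1 i, ← Finset.sum_add_distrib]
      apply Finset.sum_congr rfl
      intro x _
      ring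
    rw [Finset.sum_congr rfl (fun i _ => h2 i), Finset.sum_comm]
    apply Finset.sum_congr rfl
    intro x _
    rw [← mul_assoc, Finset.mul_sum]
    apply Finset.sum_congr rfl
    intro i _
    ring
  -- edges
  have hedge : ∀ i : Fin d, ∀ x ∈ B,
      (1 - ε) ^ 2 * (if i = i₀ ∧ x ∈ box p s then (h (x + Pi.single i 1) - h x) ^ 2 else 0) -
        (1 + ε) ^ 2 * (1 / r * (if x + Pi.single i 1 ∈ box p (2 * s) then
          |h (x + Pi.single i 1) - h x| else 0)) ≤
      ω x * ω (x + Pi.single i 1) *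
        (φ x * (Real.exp (h (x + Pi.single i 1) - h x) - 1) +
          φ (x + Pi.single i 1) * (Real.exp (-(h (x + Pi.single i 1) - h x)) - 1)) := by
    intro i x hx
    rw [hB, mem_box] at hx
    obtain ⟨hs1', hs2'⟩ := sd_step p x i
    have hω1 := hω x (by rw [mem_box]; omega)
    have hω2 := hω (x + Pi.single i 1) (by rw [mem_box]; omega)
    rw [abs_le] at hω1 hω2
    set w := ω x * ω (x + Pi.single i 1) with hw
    have hw1 : (1 - ε) ^ 2 ≤ w := by
      rw [hw, sq]
      apply mul_le_mul (by linarith) (by linarith) (by linarith) (by linarith)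
    have hw2 : w ≤ (1 + ε) ^ 2 := by
      rw [hw, sq]
      apply mul_le_mul (by linarith) (by linarith) (by linarith) (by linarith)
    have hw0 : 0 ≤ w := le_trans (by positivity) hw1
    set t := h (x + Pi.single i 1) - h x with ht
    have he := ele.2 (φ x) (φ (x + Pi.single i 1)) t (φ0 _) (φ0 _)
    have h1 : w * (min (φ x) (φ (x + Pi.single i 1)) * t ^ 2 - |φ x - φ (x + Pi.single i 1)| * |t|) ≤
        w * (φ x * (Real.exp t - 1) + φ (x + Pi.single i 1) * (Real.exp (-t) - 1)) :=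
      mul_le_mul_of_nonneg_left he hw0
    refine le_trans ?_ h1
    rw [mul_sub]
    apply sub_le_sub
    · have hmin : 0 ≤ min (φ x) (φ (x + Pi.single i 1)) := le_min (φ0 _) (φ0 _)
      split_ifs with hc
      · have h2 := hc.2
        rw [mem_box] at h2
        rw [φo x (by omega), φo (x + Pi.single i 1) (by omega), min_self, one_mul]
        exact mul_le_mul_of_nonneg_right hw1 (sq_nonneg _)
      · rw [mul_zero]
        positivity
    · split_ifs with hc
      · have h2 : |φ x - φ (x + Pi.single i 1)| ≤ 1 / r := cut_lip p (s + 1) r x i hr0'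
        exact mul_le_mul hw2 (mul_le_mul_of_nonneg_right h2 (abs_nonneg _)) (by positivity)
          (by positivity)
      · rw [mem_box] at hc
        rw [φz x (by omega), φz (x + Pi.single i 1) (by omega)]
        simp
  -- summation of the edges
  set X : ℝ := ∑ x ∈ box p s, (h (x + Pi.single i₀ 1) - h x) ^ 2 with hX
  have hX0 : 0 ≤ X := Finset.sum_nonneg (fun x _ => sq_nonneg _)
  set Y : ℝ := ∑ x ∈ box p (2 * s), ∑ i : Fin d, (if x + Pi.single i 1 ∈ box p (2 * s) then
          |h (x + Pi.single i 1) - h x| else 0) with hY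
  have hY0 : 0 ≤ Y := Finset.sum_nonneg (fun x _ => Finset.sum_nonneg (fun i _ => by
    split_ifs
    · exact abs_nonneg _
    · exact le_rfl))
  have hsub : box p s ⊆ B := box_mono p (by omega)
  have hsub2 : B ⊆ box p (2 * s) := box_mono p (by omega)
  have hmain : (1 - ε) ^ 2 * X - (1 + ε) ^ 2 * (1 / r * Y) ≤ k * (2 * (S + 1 : ℕ) + 1 : ℝ) ^ d := by
    rw [hrew] at hsum
    refine le_trans ?_ hsum
    have h1 : ∑ i : Fin d, ∑ x ∈ B,
        ((1 - ε) ^ 2 * (if i = i₀ ∧ x ∈ box p s then (h (x + Pi.single i 1) - h x) ^ 2 else 0) -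
        (1 + ε) ^ 2 * (1 / r * (if x + Pi.single i 1 ∈ box p (2 * s) then
          |h (x + Pi.single i 1) - h x| else 0))) ≤ ∑ i : Fin d, ∑ x ∈ B,
          ω x * ω (x + Pi.single i 1) *
        (φ x * (Real.exp (h (x + Pi.single i 1) - h x) - 1) +
          φ (x + Pi.single i 1) * (Real.exp (-(h (x + Pi.single i 1) - h x)) - 1)) :=
      Finset.sum_le_sum (fun i _ => Finset.sum_le_sum (fun x hx => hedge i x hx))
    refine le_trans ?_ h1
    simp only [Finset.sum_sub_distrib, ← Finset.mul_sum]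
    apply sub_le_sub
    · apply mul_le_mul_of_nonneg_left _ (by positivity)
      obtain ⟨F, hF⟩ : ∃ F : Fin d → ℝ, F = fun i => ∑ x ∈ B,
          (if i = i₀ ∧ x ∈ box p s then (h (x + Pi.single i 1) - h x) ^ 2 else 0) := ⟨_, rfl⟩
      have hF0 : ∀ i, 0 ≤ F i := by
        intro i
        rw [hF]
        refine Finset.sum_nonneg (fun x _ => ?_)
        split_ifs
        · exact sq_nonneg _
        · exact le_rfl
      have h2 : F i₀ ≤ ∑ i, F i := Finset.single_le_sum (fun i _ => hF0 i) (Finset.mem_univ i₀)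
      have h3 : X = F i₀ := by
        rw [hF, hX]
        beta_reduce
        rw [← Finset.sum_subset hsub]
        · apply Finset.sum_congr rfl
          intro x hx
          rw [if_pos ⟨rfl, hx⟩]
        · intro x _ hx
          rw [if_neg (fun hc => hx hc.2)]
      rw [h3]
      refine h2.trans (le_of_eq ?_)
      rw [hF]
    · apply mul_le_mul_of_nonneg_left _ (by positivity)
      apply mul_le_mul_of_nonneg_left _ (by positivity)
      rw [Finset.sum_comm]
      exact Finset.sum_le_sum_of_subset_of_nonneg hsub2 (fun x _ _ =>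
        Finset.sum_nonneg (fun i _ => by
          split_ifs
          · exact abs_nonneg _
          · exact le_rfl))
  -- the bound of Y
  set N : ℝ := (2 * (s : ℝ) + 1) ^ d with hN
  have hN0 : 0 < N := by positivity
  have h4s : (2 * ((2 * s : ℕ) : ℝ) + 1) ^ d ≤ 2 ^ d * N := by
    rw [hN, ← mul_pow]
    apply pow_le_pow_left₀ (by positivity)
    push_cast
    linarith
  have hYb : Y ≤ K * q * N := by
    have h1 := lci d ω h ε k p (2 * s) hd hε.le hε1 hk.le (by
      have : (1 : ℝ) ≤ (2 * s : ℕ) := by push_cast; linarith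
      exact_mod_cast this) (by
        have : 2 * (2 * s) = 4 * s := by ring
        rw [this]
        exact ⟨hω, hLS2⟩)
    have h2 : Y ^ 2 ≤ (((box p (2 * s)) ×ˢ (Finset.univ : Finset (Fin d))).card : ℝ) *
        ∑ z ∈ (box p (2 * s)) ×ˢ (Finset.univ : Finset (Fin d)),
          (if z.1 + Pi.single z.2 1 ∈ box p (2 * s) then
          |h (z.1 + Pi.single z.2 1) - h z.1| else 0) ^ 2 := by
      rw [hY, ← Finset.sum_product']
      exact sq_sum_le_card_mul_sum_sq
    have h3 : ∑ z ∈ (box p (2 * s)) ×ˢ (Finset.univ : Finset (Fin d)),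
          (if z.1 + Pi.single z.2 1 ∈ box p (2 * s) then
          |h (z.1 + Pi.single z.2 1) - h z.1| else 0) ^ 2 = eg h p (2 * s) := by
      rw [Finset.sum_product]
      unfold eg
      apply Finset.sum_congr rfl
      intro x _
      apply Finset.sum_congr rfl
      intro i _
      split_ifs
      · exact sq_abs _
      · ring
    rw [h3, Finset.card_product, card_box, Finset.card_univ, Fintype.card_fin] at h2
    have hk2 : 1 / (((2 * s : ℕ) : ℝ)) ^ 2 ≤ k := by
      rw [div_le_iff₀ (by push_cast; positivity)]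
      push_cast
      have h5 : 1 ≤ q * s := by
        have : ε ^ 2 * q * s ≤ 1 * (q * s) := by
          rw [mul_assoc]
          apply mul_le_mul_of_nonneg_right _ (mul_nonneg hq0.le hs0.le)
          exact pow_le_one₀ hε.le (by linarith only [hε1])
        linarith only [this, hs1]
      have h6 : 1 * 1 ≤ (q * s) * (q * s) := mul_le_mul h5 h5 zero_le_one (by positivity)
      have h7 : k * (2 * (s : ℝ)) ^ 2 = 4 * ((q * s) * (q * s)) := by rw [← hqq]; ring
      rw [h7]
      linarith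
    have h5 : Y ^ 2 ≤ (K * q * N) ^ 2 := by
      have e1 : (((2 * (2 * s) + 1) ^ d * d : ℕ) : ℝ) = (2 * ((2 * s : ℕ) : ℝ) + 1) ^ d * d := by
        push_cast; ring
      rw [e1] at h2
      set M := (2 * ((2 * s : ℕ) : ℝ) + 1) ^ d with hM
      have hM0 : 0 ≤ M := by positivity
      calc Y ^ 2 ≤ M * d * eg h p (2 * s) := h2
        _ ≤ M * d * (10 * d * 2 ^ d * (1 / (((2 * s : ℕ) : ℝ)) ^ 2 + k) * M) :=
          mul_le_mul_of_nonneg_left h1 (by positivity)
        _ ≤ M * d * (10 * d * 2 ^ d * (k + k) * M) := by gcongr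
        _ = 20 * d ^ 2 * 2 ^ d * k * (M * M) := by ring
        _ ≤ 20 * d ^ 2 * 2 ^ d * k * ((2 ^ d * N) * (2 ^ d * N)) := by gcongr
        _ = 20 * d ^ 2 * (2 ^ d * 2 ^ d * 2 ^ d) * k * N ^ 2 := by ring
        _ = 20 * d ^ 2 * 8 ^ d * k * N ^ 2 := by
          rw [← mul_pow, ← mul_pow]; norm_num
        _ ≤ 25 * d ^ 2 * (8 ^ d * 8 ^ d) * k * N ^ 2 := by
          have h8 : (1 : ℝ) ≤ 8 ^ d := one_le_pow₀ (by norm_num)
          have h9 : (8 : ℝ) ^ d ≤ 8 ^ d * 8 ^ d :=
            le_mul_of_one_le_right (zero_le_one.trans h8) h8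
          gcongr
          norm_num
        _ = (K * q * N) ^ 2 := by rw [hK, ← hqq]; ring
    exact (abs_le_of_sq_le_sq' h5 (by positivity)).2
  -- conclusion
  have hrq : 1 / (r : ℝ) ≤ ε * q := by
    rw [div_le_iff₀ hr0]
    calc (1 : ℝ) ≤ ε ^ 2 * q * s := hs1
      _ = ε * q * (ε * s) := by ring
      _ ≤ ε * q * r := by gcongr
  have hcard : (2 * (S + 1 : ℕ) + 1 : ℝ) ^ d ≤ (1 + 2 ^ d * (2 * ε)) * N := by
    have h1 : (2 * (S + 1 : ℕ) + 1 : ℝ) ≤ (1 + 2 * ε) * (2 * s + 1) := by
      rw [hS]; push_cast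
      linarith only [hr2, hεs, hε]
    calc (2 * (S + 1 : ℕ) + 1 : ℝ) ^ d ≤ ((1 + 2 * ε) * (2 * s + 1)) ^ d := by gcongr
      _ = (1 + 2 * ε) ^ d * N := by rw [mul_pow]
      _ ≤ (1 + 2 ^ d * (2 * ε)) * N :=
        mul_le_mul_of_nonneg_right (pow_lin d (2 * ε) (by positivity) (by linarith)) hN0.le
  have hfin : (1 - ε) ^ 2 * X ≤ (1 + C' * ε) * k * N := by
    have h1 : (1 + ε) ^ 2 * (1 / r * Y) ≤ 2 * (ε * q * (K * q * N)) := by
      have h2 : 1 / (r : ℝ) * Y ≤ ε * q * (K * q * N) :=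
        mul_le_mul hrq hYb hY0 (by positivity)
      have h3 : (1 + ε) ^ 2 ≤ 2 :=
        (pow_le_pow_left₀ (by linarith only [hε]) (by linarith only [hε1] : 1 + ε ≤ 1 + 1 / 10) 2).trans
          (by norm_num)
      exact mul_le_mul h3 h2 (by positivity) (by norm_num)
    have h2 : k * (2 * (S + 1 : ℕ) + 1 : ℝ) ^ d ≤ k * ((1 + 2 ^ d * (2 * ε)) * N) :=
      mul_le_mul_of_nonneg_left hcard hk.le
    have h3 : 2 * (ε * q * (K * q * N)) = 2 * (ε * K * k * N) := by rw [← hqq]; ring
    have h4 : (1 + C' * ε) * k * N = k * ((1 + 2 ^ d * (2 * ε)) * N) + 2 * (ε * K * k * N) := by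
      rw [hC']; ring
    linarith
  have h1 : 1 ≤ (1 + 3 * ε) * (1 - ε) ^ 2 := by
    have h2 : 0 ≤ ε * (1 - 5 * ε) := mul_nonneg hε.le (by linarith only [hε1])
    have h3 : 0 ≤ ε ^ 3 := pow_nonneg hε.le 3
    linarith only [h2, h3]
  calc X = 1 * X := (one_mul X).symm
    _ ≤ (1 + 3 * ε) * (1 - ε) ^ 2 * X := mul_le_mul_of_nonneg_right h1 hX0
    _ = (1 + 3 * ε) * ((1 - ε) ^ 2 * X) := by ring
    _ ≤ (1 + 3 * ε) * ((1 + C' * ε) * k * N) := mul_le_mul_of_nonneg_left hfin (by positivity)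
    _ = ((1 + 3 * ε) * (1 + C' * ε)) * k * N := by ring
    _ ≤ (1 + (3 + 2 * C') * ε) * k * N := by
      have h2 : (1 + 3 * ε) * (1 + C' * ε) ≤ 1 + (3 + 2 * C') * ε := by
        have : 3 * ε * (C' * ε) ≤ C' * ε := by
          have : 3 * ε ≤ 1 := by linarith
          calc 3 * ε * (C' * ε) ≤ 1 * (C' * ε) := by gcongr
            _ = C' * ε := one_mul _
        linarith only [this]
      gcongr

end Pool.Agent.LE.H34Z
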